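import Mathlib

/-!
The set `S(α)` of the limsup values of the distance from `ξ α ^ n` to the nearest integer: definitions and basic facts.
-/

open Filter Topology

namespace Pool.Agent.Lib.H57Sal

/-- The distance `‖x‖` from the real number `x` to the nearest integer. -/
noncomputable def distInt (x : ℝ) : ℝ := |x - round x|

/-- The set `S(α) = { limsup_{n → ∞} ‖ξ α ^ n‖ : ξ ∈ ℝ }`. -/
noncomputable def S (α : ℝ) : Set ℝ :=
  {t : ℝ | ∃ ξ : ℝ, t = limsup (fun n : ℕ => distInt (ξ * α ^ n)) atTop}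

/-! ### Basic facts on `distInt` -/

lemma distInt_nonneg (x : ℝ) : 0 ≤ distInt x := abs_nonneg _

lemma distInt_le_half (x : ℝ) : distInt x ≤ 1 / 2 := abs_sub_round x

lemma distInt_le (x : ℝ) (m : ℤ) : distInt x ≤ |x - m| := round_le x m

lemma distInt_eq_of_abs_le {x : ℝ} {m : ℤ} (h : |x - m| ≤ 1 / 2) : distInt x = |x - m| := by
  apply le_antisymm (distInt_le x m)
  by_contra hlt
  push Not at hlt
  -- then `round x ≠ m`, so the two integers differ by at least one
  have hne : (round x : ℤ) ≠ m := by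
    intro he
    unfold distInt at hlt
    rw [he] at hlt
    exact lt_irrefl _ hlt
  have h1 : (1 : ℝ) ≤ |((round x : ℤ) : ℝ) - m| := by
    have : (1 : ℤ) ≤ |round x - m| := Int.one_le_abs (sub_ne_zero.mpr hne)
    exact_mod_cast this
  have h2 : |((round x : ℤ) : ℝ) - m| ≤ |x - round x| + |x - m| := by
    have : ((round x : ℤ) : ℝ) - m = -(x - round x) + (x - m) := by ring
    rw [this]
    calc |-(x - round x) + (x - m)| ≤ |-(x - round x)| + |x - m| := abs_add_le _ _
      _ = _ := by rw [abs_neg]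
  have h3 : distInt x = |x - round x| := rfl
  linarith

lemma distInt_nat_mul {x : ℝ} {K : ℕ} (h : K * distInt x ≤ 1 / 2) :
    distInt (K * x) = K * distInt x := by
  have h1 : |(K : ℝ) * x - ((K : ℤ) * round x : ℤ)| = K * distInt x := by
    push_cast
    rw [← mul_sub, abs_mul, Nat.abs_cast]
    rfl
  rw [← h1]
  apply distInt_eq_of_abs_le
  rw [h1]; exact h

lemma bdd_above (α ξ : ℝ) :
    IsBoundedUnder (· ≤ ·) atTop (fun n : ℕ => distInt (ξ * α ^ n)) :=
  isBoundedUnder_of ⟨1 / 2, fun _ => distInt_le_half _⟩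

lemma bdd_below (α ξ : ℝ) :
    IsBoundedUnder (· ≥ ·) atTop (fun n : ℕ => distInt (ξ * α ^ n)) :=
  isBoundedUnder_of ⟨0, fun _ => distInt_nonneg _⟩

/-- The limsup value attached to `ξ`. -/
noncomputable def F (α ξ : ℝ) : ℝ := limsup (fun n : ℕ => distInt (ξ * α ^ n)) atTop

lemma F_mem (α ξ : ℝ) : F α ξ ∈ S α := ⟨ξ, rfl⟩

/-- Scaling: if `K · F(ξ) < 1/2` then `F(K ξ) = K · F(ξ)`. -/
lemma F_nat_mul {α ξ : ℝ} {K : ℕ} (h : K * F α ξ < 1 / 2) : F α (K * ξ) = K * F α ξ := by
  rcases Nat.eq_zero_or_pos K with hK | hK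
  · subst hK
    simp only [Nat.cast_zero, zero_mul]
    unfold F
    have : (fun n : ℕ => distInt (0 * α ^ n)) = fun _ => 0 := by
      funext n; simp [distInt]
    rw [this]
    exact limsup_const 0
  have hKpos : (0 : ℝ) < K := by exact_mod_cast hK
  have hlt : F α ξ < 1 / 2 / K := by
    rw [lt_div_iff₀ hKpos]; linarith
  have hev : ∀ᶠ n : ℕ in atTop, distInt (ξ * α ^ n) < 1 / 2 / K :=
    eventually_lt_of_limsup_lt hlt (bdd_above α ξ)
  have hev2 : (fun n : ℕ => distInt (K * ξ * α ^ n)) =ᶠ[atTop]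
      fun n : ℕ => (K : ℝ) * distInt (ξ * α ^ n) := by
    filter_upwards [hev] with n hn
    rw [mul_assoc]
    apply distInt_nat_mul
    rw [lt_div_iff₀ hKpos] at hn
    linarith
  unfold F
  rw [limsup_congr hev2]
  have hmono : Monotone fun t : ℝ => (K : ℝ) * t := fun a b hab =>
    mul_le_mul_of_nonneg_left hab hKpos.le
  have hcont : Continuous fun t : ℝ => (K : ℝ) * t := by fun_prop
  have := hmono.map_limsup_of_continuousAt (F := atTop)
    (a := fun n : ℕ => distInt (ξ * α ^ n)) hcont.continuousAt (bdd_above α ξ)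
    (bdd_below α ξ).isCoboundedUnder_le
  rw [this]
  rfl

/-- Density from small positive values: if the positive values `F(ξ)` come arbitrarily close to
`0`, then the closure of `S(α)` contains the open interval `(0, 1/2)`. -/
lemma dense_of_small {α : ℝ} (hsmall : ∀ η : ℝ, 0 < η → ∃ ξ : ℝ, 0 < F α ξ ∧ F α ξ < η)
    {u : ℝ} (hu0 : 0 < u) (hu : u < 1 / 2) : u ∈ closure (S α) := by
  rw [Metric.mem_closure_iff]
  intro η hη
  obtain ⟨ξ, hpos, hlt⟩ := hsmall η hη
  have hfl : (⌊u / F α ξ⌋₊ : ℝ) ≤ u / F α ξ := Nat.floor_le (by positivity)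
  have hfl2 : u / F α ξ < ⌊u / F α ξ⌋₊ + 1 := Nat.lt_floor_add_one _
  rw [le_div_iff₀ hpos] at hfl
  rw [div_lt_iff₀ hpos] at hfl2
  refine ⟨F α (⌊u / F α ξ⌋₊ * ξ), F_mem _ _, ?_⟩
  rw [F_nat_mul (by linarith), Real.dist_eq, abs_lt]
  constructor <;> nlinarith

/-- A Salem number: a real algebraic integer `α > 1` all of whose other conjugates lie in the closed unit disc, at least
one of them on the unit circle. (The conjugates are the complex roots of the minimal polynomial of `α` over `ℚ`.) -/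
def IsSalem (α : ℝ) : Prop :=
  1 < α ∧ IsIntegral ℤ α ∧
    (∀ z : ℂ, Polynomial.aeval z (minpoly ℚ α) = 0 → z ≠ (α : ℂ) → ‖z‖ ≤ 1) ∧
    ∃ z : ℂ, Polynomial.aeval z (minpoly ℚ α) = 0 ∧ ‖z‖ = 1

end Pool.Agent.Lib.H57Sal
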