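import Pool.Agent.Lib.H57Sal.Basic

/-!
Countably many elements of `S(α)` lie below the inverse of the length of the minimal polynomial.
-/

open Filter Topology Polynomial

namespace Pool.Agent.Lib.H57Sal

/-- A number `ξ` is determined by the nearest integers to `ξ α ^ n` for `n ≥ N`. -/
lemma eq_of_round_eq {α : ℝ} (hα : 1 < α) {ξ ξ' : ℝ} {N : ℕ}
    (h : ∀ n, N ≤ n → round (ξ * α ^ n) = round (ξ' * α ^ n)) : ξ = ξ' := by
  by_contra hne
  have hd : 0 < |ξ - ξ'| := abs_pos.mpr (sub_ne_zero.mpr hne)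
  obtain ⟨n, hn⟩ : ∃ n : ℕ, 1 / |ξ - ξ'| < α ^ n := pow_unbounded_of_one_lt _ hα
  have hα0 : 0 < α := lt_trans one_pos hα
  have hn' : 1 / |ξ - ξ'| < α ^ (N + n) := by
    refine lt_of_lt_of_le hn ?_
    exact pow_le_pow_right₀ hα.le (by omega)
  rw [div_lt_iff₀ hd] at hn'
  have h1 := h (N + n) (by omega)
  have h2 := abs_sub_round (ξ * α ^ (N + n))
  have h3 := abs_sub_round (ξ' * α ^ (N + n))
  rw [h1] at h2
  have h4 : α ^ (N + n) * |ξ - ξ'| ≤ 1 := by
    have : α ^ (N + n) * |ξ - ξ'| = |(ξ * α ^ (N + n) - round (ξ' * α ^ (N + n)))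
        - (ξ' * α ^ (N + n) - round (ξ' * α ^ (N + n)))| := by
      rw [show (ξ * α ^ (N + n) - round (ξ' * α ^ (N + n)))
        - (ξ' * α ^ (N + n) - round (ξ' * α ^ (N + n))) = α ^ (N + n) * (ξ - ξ') by ring,
        abs_mul, abs_of_pos (by positivity : 0 < α ^ (N + n))]
    rw [this]
    calc _ ≤ |ξ * α ^ (N + n) - round (ξ' * α ^ (N + n))|
        + |ξ' * α ^ (N + n) - round (ξ' * α ^ (N + n))| := abs_sub _ _
      _ ≤ 1 := by linarith
  linarith

/-- The length of an integer polynomial. -/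
noncomputable def len (p : ℤ[X]) : ℝ := ∑ i ∈ Finset.range (p.natDegree + 1), |(p.coeff i : ℝ)|

lemma len_pos {p : ℤ[X]} (hp : p.Monic) : 0 < len p := by
  unfold len
  refine Finset.sum_pos' (fun i _ => abs_nonneg _) ⟨p.natDegree, by simp, ?_⟩
  rw [hp.coeff_natDegree]; norm_num

/-- If `‖ξ α ^ n‖ < 1 / length` for all `n ≥ N`, the nearest integers satisfy the linear recurrence. -/
lemma recurrence {α : ℝ} {p : ℤ[X]} (hp : p.Monic) (hα : aeval α p = 0) {ξ : ℝ} {N : ℕ}
    (h : ∀ n, N ≤ n → distInt (ξ * α ^ n) < 1 / len p) {n : ℕ} (hn : N ≤ n) :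
    ∑ i ∈ Finset.range (p.natDegree + 1), p.coeff i * round (ξ * α ^ (n + i)) = 0 := by
  have hlen := len_pos hp
  have h0 : ∑ i ∈ Finset.range (p.natDegree + 1), (p.coeff i : ℝ) * (ξ * α ^ (n + i)) = 0 := by
    have h1 : aeval α p = ∑ i ∈ Finset.range (p.natDegree + 1), (p.coeff i : ℝ) * α ^ i := by
      rw [aeval_eq_sum_range]
      refine Finset.sum_congr rfl fun i _ => ?_
      rw [zsmul_eq_mul]
    rw [hα] at h1
    calc ∑ i ∈ Finset.range (p.natDegree + 1), (p.coeff i : ℝ) * (ξ * α ^ (n + i))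
        = ξ * α ^ n * ∑ i ∈ Finset.range (p.natDegree + 1), (p.coeff i : ℝ) * α ^ i := by
          rw [Finset.mul_sum]
          refine Finset.sum_congr rfl fun i _ => ?_
          rw [pow_add]; ring
      _ = 0 := by rw [← h1, mul_zero]
  have hlt : |((∑ i ∈ Finset.range (p.natDegree + 1), p.coeff i * round (ξ * α ^ (n + i)) : ℤ) : ℝ)|
      < 1 := by
    have e : ((∑ i ∈ Finset.range (p.natDegree + 1), p.coeff i * round (ξ * α ^ (n + i)) : ℤ) : ℝ) =
        ∑ i ∈ Finset.range (p.natDegree + 1),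
          (p.coeff i : ℝ) * (round (ξ * α ^ (n + i)) - ξ * α ^ (n + i)) := by
      push_cast
      simp only [mul_sub]
      rw [Finset.sum_sub_distrib, h0, sub_zero]
    rw [e]
    refine (Finset.abs_sum_le_sum_abs _ _).trans_lt ?_
    have h2 : ∀ i ∈ Finset.range (p.natDegree + 1),
        |(p.coeff i : ℝ) * (round (ξ * α ^ (n + i)) - ξ * α ^ (n + i))| ≤
          |(p.coeff i : ℝ)| * (1 / len p) := by
      intro i _
      rw [abs_mul, abs_sub_comm]
      exact mul_le_mul_of_nonneg_left (h (n + i) (by omega)).le (abs_nonneg _)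
    have h3 : ∑ i ∈ Finset.range (p.natDegree + 1), |(p.coeff i : ℝ)| * (1 / len p) = 1 := by
      rw [← Finset.sum_mul]
      change len p * (1 / len p) = 1
      field_simp
    rw [← h3]
    refine Finset.sum_lt_sum h2 ⟨p.natDegree, by simp, ?_⟩
    rw [abs_mul, abs_sub_comm, hp.coeff_natDegree]
    have := h (n + p.natDegree) (by omega)
    unfold distInt at this
    simpa using this
  rw [← Int.abs_lt_one_iff]
  exact_mod_cast hlt

/-- The data attached to `ξ` and `N`: the nearest integers for `N ≤ n < N + deg p`. -/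
noncomputable def dat (α : ℝ) (d N : ℕ) (ξ : ℝ) : Fin d → ℤ := fun i => round (ξ * α ^ (N + i))

lemma eq_of_dat_eq {α : ℝ} (h1 : 1 < α) {p : ℤ[X]} (hp : p.Monic) (hα : aeval α p = 0)
    {ξ ξ' : ℝ} {N : ℕ} (h : ∀ n, N ≤ n → distInt (ξ * α ^ n) < 1 / len p)
    (h' : ∀ n, N ≤ n → distInt (ξ' * α ^ n) < 1 / len p)
    (hd : dat α p.natDegree N ξ = dat α p.natDegree N ξ') : ξ = ξ' := by
  apply eq_of_round_eq h1 (N := N)
  intro n
  induction n using Nat.strong_induction_on with
  | _ n ih =>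
    intro hn
    by_cases hlt : n < N + p.natDegree
    · have := congrFun hd ⟨n - N, by omega⟩
      unfold dat at this
      simp only at this
      rw [show N + (n - N) = n by omega] at this
      exact this
    · push Not at hlt
      obtain ⟨m, rfl⟩ : ∃ m, n = m + p.natDegree := ⟨n - p.natDegree, by omega⟩
      have hm : N ≤ m := by omega
      have r := recurrence hp hα h hm
      have r' := recurrence hp hα h' hm
      rw [Finset.sum_range_succ, hp.coeff_natDegree, one_mul] at r r'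
      have e : ∑ i ∈ Finset.range p.natDegree, p.coeff i * round (ξ * α ^ (m + i)) =
          ∑ i ∈ Finset.range p.natDegree, p.coeff i * round (ξ' * α ^ (m + i)) := by
        refine Finset.sum_congr rfl fun i hi => ?_
        rw [ih (m + i) (by have := Finset.mem_range.1 hi; omega) (by omega)]
      omega

lemma countable_low {α : ℝ} (h1 : 1 < α) {p : ℤ[X]} (hp : p.Monic) (hα : aeval α p = 0) :
    {ξ : ℝ | F α ξ < 1 / len p}.Countable := by
  have hsub : {ξ : ℝ | F α ξ < 1 / len p} ⊆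
      ⋃ N : ℕ, {ξ : ℝ | ∀ n, N ≤ n → distInt (ξ * α ^ n) < 1 / len p} := by
    intro ξ hξ
    have hev : ∀ᶠ n : ℕ in atTop, distInt (ξ * α ^ n) < 1 / len p :=
      eventually_lt_of_limsup_lt hξ (bdd_above α ξ)
    obtain ⟨N, hN⟩ := eventually_atTop.mp hev
    exact Set.mem_iUnion.mpr ⟨N, hN⟩
  refine Set.Countable.mono hsub (Set.countable_iUnion fun N => ?_)
  refine Set.MapsTo.countable_of_injOn (f := dat α p.natDegree N) (t := Set.univ)
    (fun _ _ => Set.mem_univ _) ?_ Set.countable_univ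
  intro ξ hξ ξ' hξ' hd
  exact eq_of_dat_eq h1 hp hα hξ hξ' hd

/-- Only countably many elements of `S(α)` lie below `1 / length`. -/
lemma countable_S_low {α : ℝ} (h1 : 1 < α) {p : ℤ[X]} (hp : p.Monic) (hα : aeval α p = 0) :
    (S α ∩ Set.Iio (1 / len p)).Countable := by
  have : S α ∩ Set.Iio (1 / len p) ⊆ (F α) '' {ξ : ℝ | F α ξ < 1 / len p} := by
    rintro t ⟨⟨ξ, rfl⟩, ht⟩
    exact ⟨ξ, ht, rfl⟩
  exact ((countable_low h1 hp hα).image _).mono this

/-- Small positive values and countability give that `S(α)` is not closed. -/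
theorem not_isClosed {α : ℝ} (h1 : 1 < α) {p : ℤ[X]} (hp : p.Monic) (hα : aeval α p = 0)
    (hs : ∀ η : ℝ, 0 < η → ∃ ξ : ℝ, 0 < F α ξ ∧ F α ξ < η) : ¬ IsClosed (S α) := by
  intro hcl
  have hlen := len_pos hp
  set δ : ℝ := min (1 / len p) (1 / 2) with hδ
  have hδ0 : 0 < δ := lt_min (by positivity) (by norm_num)
  have hsub : Set.Ioo (0 : ℝ) δ ⊆ S α ∩ Set.Iio (1 / len p) := by
    intro u hu
    refine ⟨?_, lt_of_lt_of_le hu.2 (min_le_left _ _)⟩
    have := dense_of_small hs hu.1 (lt_of_lt_of_le hu.2 (min_le_right _ _))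
    rwa [hcl.closure_eq] at this
  have hc : (Set.Ioo (0 : ℝ) δ).Countable := (countable_S_low h1 hp hα).mono hsub
  have h3 := Cardinal.mk_Ioo_real hδ0
  have h2 := (Cardinal.le_aleph0_iff_set_countable).mpr hc
  rw [h3] at h2
  exact absurd h2 (not_le.mpr Cardinal.aleph0_lt_continuum)

/-- `S(α)` lies in `[0, 1/2]`. -/
theorem S_subset (α : ℝ) : S α ⊆ Set.Icc 0 (1 / 2) := by
  rintro t ⟨ξ, rfl⟩
  refine ⟨?_, ?_⟩
  · refine le_limsup_of_frequently_le (Frequently.of_forall fun n => distInt_nonneg _) (bdd_above α ξ)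
  · exact limsup_le_of_le (bdd_below α ξ).isCoboundedUnder_le (Eventually.of_forall fun n => distInt_le_half _)

theorem closure_eq {α : ℝ} (hs : ∀ η : ℝ, 0 < η → ∃ ξ : ℝ, 0 < F α ξ ∧ F α ξ < η) :
    closure (S α) = Set.Icc 0 (1 / 2) := by
  apply Set.Subset.antisymm
  · exact closure_minimal (S_subset α) isClosed_Icc
  · have h : Set.Ioo (0 : ℝ) (1 / 2) ⊆ closure (S α) := fun u hu => dense_of_small hs hu.1 hu.2
    have h2 : closure (Set.Ioo (0 : ℝ) (1 / 2)) ⊆ closure (S α) :=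
      closure_minimal h isClosed_closure
    rwa [closure_Ioo (by norm_num)] at h2

end Pool.Agent.Lib.H57Sal
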