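import Pool.Agent.Lib.H57Sal.Basic

/-!
The Salem number `α` which is the real root bigger than `1` of `X ^ 4 - X ^ 3 - X ^ 2 - X + 1`.
-/

open Filter Topology

namespace Pool.Agent.Lib.H57Sal.Explicit

/-! ### The Salem number -/

/-- `β = (1 + √13) / 2`, a root of `X ^ 2 - X - 3`. -/
noncomputable def β : ℝ := (1 + √13) / 2

/-- `β' = (1 - √13) / 2`, the conjugate of `β`. -/
noncomputable def β' : ℝ := (1 - √13) / 2

/-- `α = (β + √(β - 1)) / 2`, the root bigger than one of `X ^ 4 - X ^ 3 - X ^ 2 - X + 1`. -/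
noncomputable def α : ℝ := (β + √(β - 1)) / 2

/-- `γ = (β - √(β - 1)) / 2`, the inverse of `α`. -/
noncomputable def γ : ℝ := (β - √(β - 1)) / 2

lemma sq13 : √13 * √13 = (13 : ℝ) := Real.mul_self_sqrt (by norm_num)

lemma sqrt13_bounds : (3.6 : ℝ) < √13 ∧ √13 < (3.61 : ℝ) := by
  constructor
  · rw [Real.lt_sqrt (by norm_num)]; norm_num
  · rw [Real.sqrt_lt' (by norm_num)]; norm_num

lemma β_sq : β * β = β + 3 := by
  unfold β; nlinarith [sq13]

lemma β'_sq : β' * β' = β' + 3 := by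
  unfold β'; nlinarith [sq13]

lemma β_bounds : (2.3 : ℝ) < β ∧ β < 2.305 := by
  unfold β; obtain ⟨h1, h2⟩ := sqrt13_bounds; constructor <;> linarith

lemma β'_bounds : (-1.305 : ℝ) < β' ∧ β' < -1.3 := by
  unfold β'; obtain ⟨h1, h2⟩ := sqrt13_bounds; constructor <;> linarith

lemma β_add_β' : β + β' = 1 := by unfold β β'; ring

lemma sqβ : √(β - 1) * √(β - 1) = β - 1 := Real.mul_self_sqrt (by linarith [β_bounds.1])

lemma α_add_γ : α + γ = β := by unfold α γ; ring

lemma α_mul_γ : α * γ = 1 := by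
  unfold α γ
  have h1 := sqβ
  have h2 := β_sq
  nlinarith

lemma α_gt_one : 1 < α := by
  unfold α
  have := Real.sqrt_nonneg (β - 1)
  have hs : 0 < √(β - 1) := Real.sqrt_pos.mpr (by linarith [β_bounds.1])
  linarith [β_bounds.1]

lemma γ_pos : 0 < γ := by
  have h1 := α_mul_γ
  have h2 := α_gt_one
  by_contra h
  push Not at h
  nlinarith

lemma γ_lt_one : γ < 1 := by
  have h1 := α_mul_γ
  have h2 := α_gt_one
  have h3 := γ_pos
  nlinarith

lemma α_sq : α ^ 2 = β * α - 1 := by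
  have h1 := α_mul_γ
  have h2 := α_add_γ
  have : γ = β - α := by linarith
  rw [this] at h1
  nlinarith

lemma γ_sq : γ ^ 2 = β * γ - 1 := by
  have h1 := α_mul_γ
  have h2 := α_add_γ
  have : α = β - γ := by linarith
  rw [this] at h1
  nlinarith

lemma α_quartic : α ^ 4 - α ^ 3 - α ^ 2 - α + 1 = 0 := by
  have h := α_sq
  have hb := β_sq
  have h3 : α ^ 3 = β * α ^ 2 - α := by
    calc α ^ 3 = α * α ^ 2 := by ring
      _ = α * (β * α - 1) := by rw [h]
      _ = β * α ^ 2 - α := by ring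
  have h4 : α ^ 4 = β * α ^ 3 - α ^ 2 := by
    calc α ^ 4 = α ^ 2 * α ^ 2 := by ring
      _ = α ^ 2 * (β * α - 1) := by rw [h]
      _ = β * α ^ 3 - α ^ 2 := by ring
  rw [h4, h3, h]
  linear_combination (β * α - 1) * hb

lemma α_integral : IsIntegral ℤ α := by
  refine ⟨Polynomial.X ^ 4 - Polynomial.X ^ 3 - Polynomial.X ^ 2 - Polynomial.X + 1, ?_, ?_⟩
  · monicity!
  · simp only [Polynomial.eval₂_add, Polynomial.eval₂_sub, Polynomial.eval₂_pow,
      Polynomial.eval₂_X, Polynomial.eval₂_one]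
    exact α_quartic

/-! ### Countability of the low part -/

/-- A number `ξ` is determined by the nearest integers to `ξ α ^ n` for `n ≥ N`. -/
lemma eq_of_round_eq {ξ ξ' : ℝ} {N : ℕ}
    (h : ∀ n, N ≤ n → round (ξ * α ^ n) = round (ξ' * α ^ n)) : ξ = ξ' := by
  by_contra hne
  have hd : 0 < |ξ - ξ'| := abs_pos.mpr (sub_ne_zero.mpr hne)
  obtain ⟨n, hn⟩ : ∃ n : ℕ, 1 / |ξ - ξ'| < α ^ n := pow_unbounded_of_one_lt _ α_gt_one
  have hα0 : 0 < α := lt_trans one_pos α_gt_one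
  have hn' : 1 / |ξ - ξ'| < α ^ (N + n) := by
    refine lt_of_lt_of_le hn ?_
    exact pow_le_pow_right₀ α_gt_one.le (by omega)
  rw [div_lt_iff₀ hd] at hn'
  have h1 := h (N + n) (by omega)
  have h2 := abs_sub_round (ξ * α ^ (N + n))
  have h3 := abs_sub_round (ξ' * α ^ (N + n))
  rw [h1] at h2
  have h4 : α ^ (N + n) * |ξ - ξ'| ≤ 1 := by
    have : α ^ (N + n) * |ξ - ξ'| = |(ξ * α ^ (N + n) - round (ξ' * α ^ (N + n)))
        - (ξ' * α ^ (N + n) - round (ξ' * α ^ (N + n)))| := by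
      rw [show (ξ * α ^ (N + n) - round (ξ' * α ^ (N + n)))
        - (ξ' * α ^ (N + n) - round (ξ' * α ^ (N + n))) = α ^ (N + n) * (ξ - ξ') by ring,
        abs_mul, abs_of_pos (by positivity : 0 < α ^ (N + n))]
    rw [this]
    calc _ ≤ |ξ * α ^ (N + n) - round (ξ' * α ^ (N + n))|
        + |ξ' * α ^ (N + n) - round (ξ' * α ^ (N + n))| := abs_sub _ _
      _ ≤ 1 := by linarith
  linarith

/-- If `‖ξ α ^ n‖ < 1/5` for all `n ≥ N`, the nearest integers satisfy the linear recurrence. -/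
lemma recurrence {ξ : ℝ} {N : ℕ} (h : ∀ n, N ≤ n → distInt (ξ * α ^ n) < 1 / 5) {n : ℕ}
    (hn : N ≤ n) : round (ξ * α ^ (n + 4)) = round (ξ * α ^ (n + 3)) + round (ξ * α ^ (n + 2))
      + round (ξ * α ^ (n + 1)) - round (ξ * α ^ n) := by
  have e0 := h n hn
  have e1 := h (n + 1) (by omega)
  have e2 := h (n + 2) (by omega)
  have e3 := h (n + 3) (by omega)
  have e4 := h (n + 4) (by omega)
  unfold distInt at e0 e1 e2 e3 e4
  rw [abs_lt] at e0 e1 e2 e3 e4
  have hq : ξ * α ^ (n + 4) - ξ * α ^ (n + 3) - ξ * α ^ (n + 2) - ξ * α ^ (n + 1)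
      + ξ * α ^ n = 0 := by
    have := α_quartic
    calc _ = ξ * α ^ n * (α ^ 4 - α ^ 3 - α ^ 2 - α + 1) := by ring
      _ = 0 := by rw [this, mul_zero]
  have hlt : |((round (ξ * α ^ (n + 4)) - round (ξ * α ^ (n + 3)) - round (ξ * α ^ (n + 2))
      - round (ξ * α ^ (n + 1)) + round (ξ * α ^ n) : ℤ) : ℝ)| < 1 := by
    push_cast
    rw [abs_lt]
    constructor <;> linarith [e0.1, e0.2, e1.1, e1.2, e2.1, e2.2, e3.1, e3.2, e4.1, e4.2]
  have hz : round (ξ * α ^ (n + 4)) - round (ξ * α ^ (n + 3)) - round (ξ * α ^ (n + 2))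
      - round (ξ * α ^ (n + 1)) + round (ξ * α ^ n) = 0 := by
    rw [← Int.abs_lt_one_iff]
    exact_mod_cast hlt
  linarith

/-- The data attached to `ξ` and `N`: four consecutive nearest integers. -/
noncomputable def dat (N : ℕ) (ξ : ℝ) : ℤ × ℤ × ℤ × ℤ :=
  (round (ξ * α ^ N), round (ξ * α ^ (N + 1)), round (ξ * α ^ (N + 2)), round (ξ * α ^ (N + 3)))

lemma eq_of_dat_eq {ξ ξ' : ℝ} {N : ℕ} (h : ∀ n, N ≤ n → distInt (ξ * α ^ n) < 1 / 5)
    (h' : ∀ n, N ≤ n → distInt (ξ' * α ^ n) < 1 / 5) (hd : dat N ξ = dat N ξ') : ξ = ξ' := by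
  unfold dat at hd
  simp only [Prod.mk.injEq] at hd
  obtain ⟨h0, h1, h2, h3⟩ := hd
  have key : ∀ k : ℕ, round (ξ * α ^ (N + k)) = round (ξ' * α ^ (N + k))
      ∧ round (ξ * α ^ (N + k + 1)) = round (ξ' * α ^ (N + k + 1))
      ∧ round (ξ * α ^ (N + k + 2)) = round (ξ' * α ^ (N + k + 2))
      ∧ round (ξ * α ^ (N + k + 3)) = round (ξ' * α ^ (N + k + 3)) := by
    intro k
    induction k with
    | zero => exact ⟨h0, h1, h2, h3⟩
    | succ k ih =>
      obtain ⟨i0, i1, i2, i3⟩ := ih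
      refine ⟨i1, i2, i3, ?_⟩
      have r := recurrence h (n := N + k) (by omega)
      have r' := recurrence h' (n := N + k) (by omega)
      have e : N + (k + 1) + 3 = N + k + 4 := by ring
      rw [e, r, r', i0, i1, i2, i3]
  apply eq_of_round_eq (N := N)
  intro n hn
  obtain ⟨k, rfl⟩ := Nat.exists_eq_add_of_le hn
  exact (key k).1

lemma countable_low : {ξ : ℝ | F α ξ < 1 / 5}.Countable := by
  have hsub : {ξ : ℝ | F α ξ < 1 / 5} ⊆
      ⋃ N : ℕ, {ξ : ℝ | ∀ n, N ≤ n → distInt (ξ * α ^ n) < 1 / 5} := by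
    intro ξ hξ
    have hev : ∀ᶠ n : ℕ in atTop, distInt (ξ * α ^ n) < 1 / 5 :=
      eventually_lt_of_limsup_lt hξ (bdd_above α ξ)
    obtain ⟨N, hN⟩ := eventually_atTop.mp hev
    exact Set.mem_iUnion.mpr ⟨N, hN⟩
  refine Set.Countable.mono hsub (Set.countable_iUnion fun N => ?_)
  refine Set.MapsTo.countable_of_injOn (f := dat N) (t := Set.univ) (fun _ _ => Set.mem_univ _)
    ?_ Set.countable_univ
  intro ξ hξ ξ' hξ' hd
  exact eq_of_dat_eq hξ hξ' hd

/-- Only countably many elements of `S(α)` lie below `1/5`. -/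
lemma countable_S_low : (S α ∩ Set.Iio (1 / 5)).Countable := by
  have : S α ∩ Set.Iio (1 / 5) ⊆ (F α) '' {ξ : ℝ | F α ξ < 1 / 5} := by
    rintro t ⟨⟨ξ, rfl⟩, ht⟩
    exact ⟨ξ, ht, rfl⟩
  exact (countable_low.image _).mono this

/-! ### Small positive values -/

/-- A pair of reals of the form `(u + v β, u + v β')` with `u, v` integers. -/
def IsConjPair (x y : ℝ) : Prop := ∃ u v : ℤ, x = u + v * β ∧ y = u + v * β'

lemma IsConjPair.mul {x y x' y' : ℝ} (h : IsConjPair x y) (h' : IsConjPair x' y') :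
    IsConjPair (x * x') (y * y') := by
  obtain ⟨u, v, rfl, rfl⟩ := h
  obtain ⟨u', v', rfl, rfl⟩ := h'
  refine ⟨u * u' + 3 * v * v', u * v' + v * u' + v * v', ?_, ?_⟩
  · push_cast
    linear_combination (v * v' : ℝ) * β_sq
  · push_cast
    linear_combination (v * v' : ℝ) * β'_sq

lemma IsConjPair.sub {x y x' y' : ℝ} (h : IsConjPair x y) (h' : IsConjPair x' y') :
    IsConjPair (x - x') (y - y') := by
  obtain ⟨u, v, rfl, rfl⟩ := h
  obtain ⟨u', v', rfl, rfl⟩ := h'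
  refine ⟨u - u', v - v', ?_, ?_⟩ <;> push_cast <;> ring

lemma IsConjPair.sum_int {x y : ℝ} (h : IsConjPair x y) : ∃ m : ℤ, x + y = m := by
  obtain ⟨u, v, rfl, rfl⟩ := h
  refine ⟨2 * u + v, ?_⟩
  push_cast
  linear_combination (v : ℝ) * β_add_β'

lemma isConjPair_β : IsConjPair β β' := ⟨0, 1, by simp, by simp⟩

lemma isConjPair_one : IsConjPair 1 1 := ⟨1, 0, by simp, by simp⟩

/-- The angle of the two conjugates of `α` on the unit circle. -/
noncomputable def θ : ℝ := Real.arccos (β' / 2)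

lemma two_cos_θ : 2 * Real.cos θ = β' := by
  unfold θ
  obtain ⟨h1, h2⟩ := β'_bounds
  rw [Real.cos_arccos (by linarith) (by linarith)]
  ring

lemma cos_rec (n : ℕ) : 2 * Real.cos ((n + 2 : ℕ) * θ) =
    β' * (2 * Real.cos ((n + 1 : ℕ) * θ)) - 2 * Real.cos (n * θ) := by
  have e1 : ((n + 2 : ℕ) : ℝ) * θ = (n + 1 : ℕ) * θ + θ := by push_cast; ring
  have e2 : (n : ℝ) * θ = (n + 1 : ℕ) * θ - θ := by push_cast; ring
  rw [← two_cos_θ, e1, e2, Real.cos_add, Real.cos_sub]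
  ring

lemma pow_rec (n : ℕ) : α ^ (n + 2) + γ ^ (n + 2) =
    β * (α ^ (n + 1) + γ ^ (n + 1)) - (α ^ n + γ ^ n) := by
  have h1 : α ^ (n + 2) = α ^ n * (β * α - 1) := by rw [← α_sq]; ring
  have h2 : γ ^ (n + 2) = γ ^ n * (β * γ - 1) := by rw [← γ_sq]; ring
  rw [h1, h2]; ring

lemma isConjPair_pow (n : ℕ) :
    IsConjPair (α ^ n + γ ^ n) (2 * Real.cos (n * θ)) ∧
    IsConjPair (α ^ (n + 1) + γ ^ (n + 1)) (2 * Real.cos ((n + 1 : ℕ) * θ)) := by
  induction n with
  | zero =>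
    refine ⟨⟨2, 0, by norm_num, by simp⟩, ?_⟩
    simp only [zero_add, pow_one, Nat.cast_one, one_mul]
    rw [α_add_γ, two_cos_θ]
    exact isConjPair_β
  | succ n ih =>
    refine ⟨ih.2, ?_⟩
    have h1 := pow_rec n
    have h2 := cos_rec n
    rw [show n + 1 + 1 = n + 2 from rfl, h1, h2]
    exact (isConjPair_β.mul ih.2).sub ih.1

/-- The unit `ρ = β + 1` and its conjugate `ρ' = β' + 1`. -/
lemma isConjPair_ρ_pow (k : ℕ) : IsConjPair ((β + 1) ^ k) ((β' + 1) ^ k) := by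
  induction k with
  | zero => simpa using isConjPair_one
  | succ k ih =>
    rw [pow_succ, pow_succ]
    exact ih.mul ⟨1, 1, by push_cast; ring, by push_cast; ring⟩

/-- The key identity: `ρ ^ k α ^ n` is an integer up to two explicit small terms. -/
lemma key_identity (k n : ℕ) : ∃ m : ℤ, (β + 1) ^ k * α ^ n - m =
    -((β + 1) ^ k * γ ^ n) - (β' + 1) ^ k * (2 * Real.cos (n * θ)) := by
  obtain ⟨m, hm⟩ := ((isConjPair_ρ_pow k).mul (isConjPair_pow n).1).sum_int
  refine ⟨m, ?_⟩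
  rw [← hm]; ring

lemma abs_ρ'_lt : |β' + 1| < 0.31 := by
  obtain ⟨h1, h2⟩ := β'_bounds
  rw [abs_lt]; constructor <;> linarith

lemma abs_ρ'_pos : 0 < |β' + 1| := by
  obtain ⟨h1, h2⟩ := β'_bounds
  rw [abs_pos]; linarith

/-- `cos (n θ)` does not tend to zero. -/
lemma cos_not_tendsto_zero : ¬ Tendsto (fun n : ℕ => Real.cos (n * θ)) atTop (𝓝 0) := by
  intro h
  have h2 : Tendsto (fun n : ℕ => Real.cos ((2 * n : ℕ) * θ)) atTop (𝓝 0) :=
    h.comp (tendsto_id.const_mul_atTop' (by norm_num : 0 < 2))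
  have h3 : (fun n : ℕ => Real.cos ((2 * n : ℕ) * θ)) =
      fun n : ℕ => 2 * Real.cos (n * θ) ^ 2 - 1 := by
    funext n
    rw [← Real.cos_two_mul]
    congr 1
    push_cast; ring
  rw [h3] at h2
  have h4 : Tendsto (fun n : ℕ => 2 * Real.cos (n * θ) ^ 2 - 1) atTop (𝓝 (2 * 0 ^ 2 - 1)) :=
    ((h.pow 2).const_mul 2).sub_const 1
  have := tendsto_nhds_unique h2 h4
  norm_num at this

lemma small_values (η : ℝ) (hη : 0 < η) : ∃ ξ : ℝ, 0 < F α ξ ∧ F α ξ < η := by
  -- choose `k` so that `2 |ρ'| ^ k` is small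
  have hlt1 : |β' + 1| < 1 := lt_trans abs_ρ'_lt (by norm_num)
  obtain ⟨k, hk⟩ : ∃ k : ℕ, |β' + 1| ^ k < min (η / 8) (1 / 8) :=
    exists_pow_lt_of_lt_one (by positivity) hlt1
  have hk1 : |β' + 1| ^ k < η / 8 := lt_of_lt_of_le hk (min_le_left _ _)
  have hk2 : |β' + 1| ^ k < 1 / 8 := lt_of_lt_of_le hk (min_le_right _ _)
  set r : ℝ := |β' + 1| ^ k with hr
  have hr0 : 0 < r := pow_pos abs_ρ'_pos k
  -- the contracting term tends to zero
  have hγ : Tendsto (fun n : ℕ => (β + 1) ^ k * γ ^ n) atTop (𝓝 0) := by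
    have := (tendsto_pow_atTop_nhds_zero_of_lt_one γ_pos.le γ_lt_one).const_mul ((β + 1) ^ k)
    simpa using this
  have hρpos : 0 < β + 1 := by linarith [β_bounds.1]
  refine ⟨(β + 1) ^ k, ?_, ?_⟩
  · -- positivity
    by_contra hcon
    push Not at hcon
    -- then `‖ρ ^ k α ^ n‖` tends to zero
    have hzero : Tendsto (fun n : ℕ => distInt ((β + 1) ^ k * α ^ n)) atTop (𝓝 0) := by
      apply tendsto_order.mpr
      constructor
      · intro a ha
        exact Eventually.of_forall fun n => lt_of_lt_of_le ha (distInt_nonneg _)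
      · intro a ha
        exact eventually_lt_of_limsup_lt (lt_of_le_of_lt hcon ha) (bdd_above _ _)
    -- for large `n`, the distance is exactly the absolute value of the error term
    have hev : ∀ᶠ n : ℕ in atTop, (β + 1) ^ k * γ ^ n < 1 / 8 :=
      (tendsto_order.mp hγ).2 _ (by norm_num)
    have hbound : ∀ᶠ n : ℕ in atTop, |Real.cos (n * θ)| ≤
        (distInt ((β + 1) ^ k * α ^ n) + (β + 1) ^ k * γ ^ n) / (2 * r) := by
      filter_upwards [hev] with n hn
      obtain ⟨m, hm⟩ := key_identity k n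
      have hc : |Real.cos (n * θ)| ≤ 1 := Real.abs_cos_le_one _
      have hcpos : 0 ≤ (β + 1) ^ k * γ ^ n := by
        have := γ_pos
        positivity
      have habs : |(β' + 1) ^ k * (2 * Real.cos (n * θ))| = r * (2 * |Real.cos (n * θ)|) := by
        rw [abs_mul, abs_mul, abs_pow, abs_two]
      have hle : |(β + 1) ^ k * α ^ n - m| ≤ 1 / 2 := by
        rw [hm]
        calc |-((β + 1) ^ k * γ ^ n) - (β' + 1) ^ k * (2 * Real.cos (n * θ))|
            ≤ |-((β + 1) ^ k * γ ^ n)| + |(β' + 1) ^ k * (2 * Real.cos (n * θ))| := abs_sub _ _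
          _ = (β + 1) ^ k * γ ^ n + r * (2 * |Real.cos (n * θ)|) := by
              rw [abs_neg, abs_of_nonneg hcpos, habs]
          _ ≤ 1 / 2 := by nlinarith
      rw [distInt_eq_of_abs_le hle, le_div_iff₀ (by positivity), hm]
      have : |(β' + 1) ^ k * (2 * Real.cos (n * θ))| ≤
          |-((β + 1) ^ k * γ ^ n) - (β' + 1) ^ k * (2 * Real.cos (n * θ))|
            + |(β + 1) ^ k * γ ^ n| := by
        have e : (β' + 1) ^ k * (2 * Real.cos (n * θ)) =
          -(-((β + 1) ^ k * γ ^ n) - (β' + 1) ^ k * (2 * Real.cos (n * θ)))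
            - (β + 1) ^ k * γ ^ n := by ring
        calc |(β' + 1) ^ k * (2 * Real.cos (n * θ))|
            = |-(-((β + 1) ^ k * γ ^ n) - (β' + 1) ^ k * (2 * Real.cos (n * θ)))
            - (β + 1) ^ k * γ ^ n| := by rw [← e]
          _ ≤ |-(-((β + 1) ^ k * γ ^ n) - (β' + 1) ^ k * (2 * Real.cos (n * θ)))|
            + |(β + 1) ^ k * γ ^ n| := abs_sub _ _
          _ = _ := by rw [abs_neg]
      rw [habs, abs_of_nonneg hcpos] at this
      linarith
    have hlim : Tendsto (fun n : ℕ =>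
        (distInt ((β + 1) ^ k * α ^ n) + (β + 1) ^ k * γ ^ n) / (2 * r)) atTop (𝓝 0) := by
      have := (hzero.add hγ).div_const (2 * r)
      simpa using this
    have habs0 : Tendsto (fun n : ℕ => |Real.cos (n * θ)|) atTop (𝓝 0) :=
      squeeze_zero' (Eventually.of_forall fun n => abs_nonneg _) hbound hlim
    exact cos_not_tendsto_zero ((tendsto_zero_iff_abs_tendsto_zero _).mpr habs0)
  · -- smallness
    have hev : ∀ᶠ n : ℕ in atTop, (β + 1) ^ k * γ ^ n < η / 8 :=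
      (tendsto_order.mp hγ).2 _ (by positivity)
    have hle : F α ((β + 1) ^ k) ≤ η / 2 := by
      unfold F
      apply limsup_le_of_le (bdd_below _ _).isCoboundedUnder_le
      filter_upwards [hev] with n hn
      obtain ⟨m, hm⟩ := key_identity k n
      have hc : |Real.cos (n * θ)| ≤ 1 := Real.abs_cos_le_one _
      have hcpos : 0 ≤ (β + 1) ^ k * γ ^ n := by
        have := γ_pos
        positivity
      have habs : |(β' + 1) ^ k * (2 * Real.cos (n * θ))| = r * (2 * |Real.cos (n * θ)|) := by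
        rw [abs_mul, abs_mul, abs_pow, abs_two]
      calc distInt ((β + 1) ^ k * α ^ n) ≤ |(β + 1) ^ k * α ^ n - m| := distInt_le _ _
        _ ≤ |-((β + 1) ^ k * γ ^ n)| + |(β' + 1) ^ k * (2 * Real.cos (n * θ))| := by
            rw [hm]; exact abs_sub _ _
        _ = (β + 1) ^ k * γ ^ n + r * (2 * |Real.cos (n * θ)|) := by
              rw [abs_neg, abs_of_nonneg hcpos, habs]
        _ ≤ η / 2 := by nlinarith
    linarith

/-- `S(α)` is not closed. -/
theorem not_isClosed_S : ¬ IsClosed (S α) := by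
  intro hcl
  have hsub : Set.Ioo (0 : ℝ) (1 / 5) ⊆ S α ∩ Set.Iio (1 / 5) := by
    intro u hu
    refine ⟨?_, hu.2⟩
    have := dense_of_small small_values hu.1 (lt_trans hu.2 (by norm_num))
    rwa [hcl.closure_eq] at this
  have hc : (Set.Ioo (0 : ℝ) (1 / 5)).Countable := countable_S_low.mono hsub
  have h1 := Cardinal.mk_Ioo_real (by norm_num : (0 : ℝ) < 1 / 5)
  have h2 := (Cardinal.le_aleph0_iff_set_countable).mpr hc
  rw [h1] at h2
  exact absurd h2 (not_le.mpr Cardinal.aleph0_lt_continuum)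

end Pool.Agent.Lib.H57Sal.Explicit
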