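import Pool.Agent.Lib.H57Sal.Basic

/-!
Algebraic integers of a number field which are small at all archimedean places except one real place.
-/

open Filter Topology NumberField

namespace Pool.Agent.Lib.H57Sal

open scoped ENNReal NNReal

theorem exists_small (K : Type*) [Field K] [NumberField K] (φ : K →+* ℂ)
    (hφ : ComplexEmbedding.IsReal φ) (ε : ℝ) (hε : 0 < ε) :
    ∃ a : 𝓞 K, a ≠ 0 ∧ ∀ σ : K →+* ℂ, σ ≠ φ → ‖σ (a : K)‖ < ε := by
  classical
  set w₀ : InfinitePlace K := InfinitePlace.mk φ with hw₀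
  have hc : (mixedEmbedding.convexBodyLTFactor K : ℝ≥0∞) ≠ 0 := by
    exact_mod_cast mixedEmbedding.convexBodyLTFactor_ne_zero K
  have hb := mixedEmbedding.minkowskiBound_lt_top K ((1 : (FractionalIdeal (nonZeroDivisors (𝓞 K)) K)ˣ))
  set M : ℝ≥0 := (mixedEmbedding.minkowskiBound K
    ((1 : (FractionalIdeal (nonZeroDivisors (𝓞 K)) K)ˣ))).toNNReal with hM
  obtain ⟨g, hg1, hg2⟩ := mixedEmbedding.adjust_f K (f := fun _ => Real.toNNReal ε) (w₁ := w₀) (M + 1)
    (fun w _ => (Real.toNNReal_pos.2 hε).ne')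
  have hvol : mixedEmbedding.minkowskiBound K ((1 : (FractionalIdeal (nonZeroDivisors (𝓞 K)) K)ˣ)) <
      MeasureTheory.volume (mixedEmbedding.convexBodyLT K g) := by
    rw [mixedEmbedding.convexBodyLT_volume]
    have h1 : (∏ w, ((g w : ℝ≥0∞)) ^ (InfinitePlace.mult w)) = ((M + 1 : ℝ≥0) : ℝ≥0∞) := by
      rw [← hg2]; push_cast; rfl
    have h2 : mixedEmbedding.minkowskiBound K ((1 : (FractionalIdeal (nonZeroDivisors (𝓞 K)) K)ˣ)) =
        (M : ℝ≥0∞) := by
      rw [hM, ENNReal.coe_toNNReal hb.ne]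
    have h3 : (1 : ℝ≥0) ≤ mixedEmbedding.convexBodyLTFactor K :=
      mixedEmbedding.one_le_convexBodyLTFactor K
    rw [h2]
    have h4 : M < mixedEmbedding.convexBodyLTFactor K * ∏ w, (g w) ^ (InfinitePlace.mult w) := by
      rw [hg2]
      calc M < M + 1 := lt_add_of_pos_right _ one_pos
        _ = 1 * (M + 1) := (one_mul _).symm
        _ ≤ _ := mul_le_mul_of_nonneg_right h3 (by positivity)
    exact_mod_cast h4
  obtain ⟨a, ha, hlt⟩ := mixedEmbedding.exists_ne_zero_mem_ringOfIntegers_lt K hvol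
  refine ⟨a, ha, fun σ hσ => ?_⟩
  have hne : InfinitePlace.mk σ ≠ w₀ := by
    intro h
    rw [hw₀, InfinitePlace.mk_eq_iff] at h
    rcases h with h | h
    · exact hσ h
    · apply hσ
      ext x
      have h5 : ComplexEmbedding.conjugate σ x = φ x := by rw [h]
      have h6 : ComplexEmbedding.conjugate φ x = φ x := by
        rw [ComplexEmbedding.isReal_iff.1 hφ]
      rw [ComplexEmbedding.conjugate_coe_eq] at h5 h6
      rw [← h6, ← h5, Complex.conj_conj]
  have := hlt (InfinitePlace.mk σ)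
  rw [hg1 _ hne, Real.coe_toNNReal _ hε.le] at this
  simpa using this

end Pool.Agent.Lib.H57Sal
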