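import Pool.Agent.Lib.H57Sal.Field

/-!
Small positive elements of `S(α)` for a Salem number `α`.
-/

open Filter Topology Polynomial NumberField IntermediateField

namespace Pool.Agent.Lib.H57Sal

/-- If a sum of geometric progressions with distinct ratios tends to `0`, then a ratio of modulus one has
coefficient zero. -/
theorem coeff_eq_zero {ι : Type*} [Fintype ι] [DecidableEq ι] (v c : ι → ℂ) (hv : Function.Injective v)
    (h : Tendsto (fun n : ℕ => ∑ i, c i * v i ^ n) atTop (𝓝 0)) (i : ι) (hi : ‖v i‖ = 1) : c i = 0 := by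
  set L : ℂ[X] := ∏ j ∈ Finset.univ.erase i, (X - C (v j)) with hL
  have hLj : ∀ j, j ≠ i → L.eval (v j) = 0 := by
    intro j hj
    rw [hL, eval_prod]
    exact Finset.prod_eq_zero (Finset.mem_erase.2 ⟨hj, Finset.mem_univ _⟩) (by simp)
  have hLi : L.eval (v i) ≠ 0 := by
    rw [hL, eval_prod, Finset.prod_ne_zero_iff]
    intro j hj
    simp only [eval_sub, eval_X, eval_C]
    exact sub_ne_zero.2 fun e => (Finset.mem_erase.1 hj).1 (hv e).symm
  have hsum : ∀ n : ℕ, ∑ k ∈ Finset.range (L.natDegree + 1), L.coeff k * ∑ j, c j * v j ^ (n + k) =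
      c i * v i ^ n * L.eval (v i) := by
    intro n
    calc ∑ k ∈ Finset.range (L.natDegree + 1), L.coeff k * ∑ j, c j * v j ^ (n + k)
        = ∑ j, c j * v j ^ n * L.eval (v j) := by
          simp only [Finset.mul_sum]
          rw [Finset.sum_comm]
          refine Finset.sum_congr rfl fun j _ => ?_
          rw [eval_eq_sum_range, Finset.mul_sum]
          refine Finset.sum_congr rfl fun k _ => ?_
          rw [pow_add]; ring
      _ = c i * v i ^ n * L.eval (v i) := by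
          rw [Finset.sum_eq_single i]
          · intro j _ hj
            rw [hLj j hj, mul_zero]
          · intro h; exact absurd (Finset.mem_univ _) h
  have hlim : Tendsto (fun n : ℕ => c i * v i ^ n * L.eval (v i)) atTop (𝓝 0) := by
    have h1 : Tendsto (fun n : ℕ => ∑ k ∈ Finset.range (L.natDegree + 1),
        L.coeff k * ∑ j, c j * v j ^ (n + k)) atTop
        (𝓝 (∑ k ∈ Finset.range (L.natDegree + 1), L.coeff k * 0)) := by
      refine tendsto_finset_sum _ fun k _ => ?_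
      refine Tendsto.const_mul _ ?_
      exact h.comp (tendsto_add_atTop_nat k)
    simp only [mul_zero, Finset.sum_const_zero] at h1
    refine h1.congr fun n => ?_
    exact hsum n
  have hn : Tendsto (fun _ : ℕ => ‖c i‖ * ‖L.eval (v i)‖) atTop (𝓝 0) := by
    have := hlim.norm
    rw [norm_zero] at this
    refine this.congr fun n => ?_
    rw [norm_mul, norm_mul, norm_pow, hi, one_pow, mul_one]
  have := tendsto_nhds_unique hn tendsto_const_nhds
  rcases mul_eq_zero.1 this.symm with h' | h'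
  · exact norm_eq_zero.1 h'
  · exact absurd (norm_eq_zero.1 h') hLi

section

variable (α : ℝ)

/-- The inclusion of `ℚ(α)` in `ℂ`. -/
noncomputable def inc : ℚ⟮α⟯ →ₐ[ℚ] ℂ := (Complex.ofRealAm.restrictScalars ℚ).comp (ℚ⟮α⟯.val)

lemma inc_apply (x : ℚ⟮α⟯) : inc α x = ((x : ℝ) : ℂ) := rfl

lemma inc_gen : inc α (AdjoinSimple.gen ℚ α) = (α : ℂ) := by
  rw [inc_apply, AdjoinSimple.coe_gen]

lemma alg_ext {σ τ : ℚ⟮α⟯ →ₐ[ℚ] ℂ} (h : σ (AdjoinSimple.gen ℚ α) = τ (AdjoinSimple.gen ℚ α)) :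
    σ = τ := by
  refine adjoin_algHom_ext ℚ fun x hx => ?_
  obtain rfl := Set.mem_singleton_iff.1 hx
  exact h

lemma aeval_conj (σ : ℚ⟮α⟯ →ₐ[ℚ] ℂ) : aeval (σ (AdjoinSimple.gen ℚ α)) (minpoly ℚ α) = 0 := by
  rw [aeval_algHom_apply]
  have h := congrArg σ (aeval_gen_minpoly ℚ α)
  rw [map_zero] at h
  exact h

/-- The trace of `a α ^ n` is an integer. -/
lemma trace_int (hα : IsIntegral ℤ α) [NumberField ℚ⟮α⟯] (a : 𝓞 ℚ⟮α⟯) (n : ℕ) :
    ∃ m : ℤ, ∑ σ : ℚ⟮α⟯ →ₐ[ℚ] ℂ, σ (a : ℚ⟮α⟯) * σ (AdjoinSimple.gen ℚ α) ^ n = (m : ℂ) := by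
  have hg : IsIntegral ℤ (AdjoinSimple.gen ℚ α) := by
    rw [← isIntegral_algebraMap_iff (algebraMap ℚ⟮α⟯ ℝ).injective]
    exact hα
  have hx : IsIntegral ℤ ((a : ℚ⟮α⟯) * AdjoinSimple.gen ℚ α ^ n) :=
    (a.isIntegral_coe).mul (hg.pow n)
  have ht : IsIntegral ℤ (Algebra.trace ℚ ℚ⟮α⟯ ((a : ℚ⟮α⟯) * AdjoinSimple.gen ℚ α ^ n)) :=
    Algebra.isIntegral_trace hx
  obtain ⟨m, hm⟩ := IsIntegrallyClosed.isIntegral_iff.1 ht
  refine ⟨m, ?_⟩
  have h1 := trace_eq_sum_embeddings (K := ℚ) (L := ℚ⟮α⟯) (E := ℂ)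
    (x := (a : ℚ⟮α⟯) * AdjoinSimple.gen ℚ α ^ n)
  rw [← hm] at h1
  simp only [map_mul, map_pow] at h1
  rw [← h1]
  simp

theorem small_values (hα : IsSalem α) (η : ℝ) (hη : 0 < η) : ∃ ξ : ℝ, 0 < F α ξ ∧ F α ξ < η := by
  classical
  obtain ⟨h1, hint, hle, z, hz, hz1⟩ := hα
  have hintQ : IsIntegral ℚ α := hint.tower_top
  haveI : FiniteDimensional ℚ ℚ⟮α⟯ := adjoin.finiteDimensional hintQ
  haveI : NumberField ℚ⟮α⟯ := { to_charZero := inferInstance, to_finiteDimensional := this }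
  set θ : ℚ⟮α⟯ := AdjoinSimple.gen ℚ α with hθ
  set ι := inc α with hι
  -- the conjugate on the unit circle
  obtain ⟨τ, hτ⟩ : ∃ τ : ℚ⟮α⟯ →ₐ[ℚ] ℂ, τ θ = z := by
    have hmem : z ∈ (minpoly ℚ α).aroots ℂ := by
      rw [mem_aroots]
      exact ⟨minpoly.ne_zero hintQ, hz⟩
    exact ⟨(algHomAdjoinIntegralEquiv ℚ hintQ).symm ⟨z, hmem⟩,
      algHomAdjoinIntegralEquiv_symm_apply_gen ℚ hintQ ⟨z, hmem⟩⟩
  have hτι : τ ≠ ι := by
    intro h
    rw [h, hθ, hι, inc_gen] at hτ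
    rw [← hτ, Complex.norm_real, Real.norm_eq_abs, abs_of_pos (by linarith)] at hz1
    linarith
  have hconj : ∀ σ : ℚ⟮α⟯ →ₐ[ℚ] ℂ, σ ≠ ι → ‖σ θ‖ ≤ 1 := by
    intro σ hσ
    refine hle _ (aeval_conj α σ) fun h => hσ (alg_ext α ?_)
    rw [hι, inc_gen]
    exact h
  set D : ℝ := (Fintype.card (ℚ⟮α⟯ →ₐ[ℚ] ℂ) : ℝ) with hD
  have hD0 : 0 ≤ D := Nat.cast_nonneg _
  set ε : ℝ := min (η / 2) (1 / 4) / (D + 1) with hε
  have hε0 : 0 < ε := by positivity
  have hεD : D * ε < min (η / 2) (1 / 4) := by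
    rw [hε, mul_div_assoc', div_lt_iff₀ (by positivity)]
    have : 0 < min (η / 2) (1 / 4 : ℝ) := by positivity
    nlinarith
  have hreal : ComplexEmbedding.IsReal (ι : ℚ⟮α⟯ →+* ℂ) := by
    rw [ComplexEmbedding.isReal_iff]
    ext x
    rw [ComplexEmbedding.conjugate_coe_eq]
    change (starRingEnd ℂ) (inc α x) = inc α x
    rw [inc_apply, Complex.conj_ofReal]
  obtain ⟨a, ha, hsmall⟩ := exists_small ℚ⟮α⟯ (ι : ℚ⟮α⟯ →+* ℂ) hreal ε hε0
  have ha0 : (a : ℚ⟮α⟯) ≠ 0 := fun h => ha (RingOfIntegers.coe_eq_zero_iff.1 h)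
  have hsm : ∀ σ : ℚ⟮α⟯ →ₐ[ℚ] ℂ, σ ≠ ι → ‖σ (a : ℚ⟮α⟯)‖ < ε := by
    intro σ hσ
    refine hsmall (σ : ℚ⟮α⟯ →+* ℂ) fun h => hσ ?_
    ext x
    exact RingHom.congr_fun h x
  set ξ : ℝ := ((a : ℚ⟮α⟯) : ℝ) with hξ
  -- the error term
  set s : ℕ → ℂ := fun n => ∑ σ ∈ Finset.univ.erase ι, σ (a : ℚ⟮α⟯) * σ θ ^ n with hs
  have hkey : ∀ n : ℕ, ∃ m : ℤ, ((ξ * α ^ n - m : ℝ) : ℂ) = - s n := by
    intro n
    obtain ⟨m, hm⟩ := trace_int α hint a n
    refine ⟨m, ?_⟩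
    rw [← Finset.add_sum_erase _ _ (Finset.mem_univ ι)] at hm
    have e : ι (a : ℚ⟮α⟯) * ι (AdjoinSimple.gen ℚ α) ^ n = ((ξ * α ^ n : ℝ) : ℂ) := by
      rw [hι, inc_gen, inc_apply]
      push_cast
      rfl
    rw [e] at hm
    rw [hs]
    push_cast
    push_cast at hm
    rw [← hm, hθ]
    ring
  have hsb : ∀ n, ‖s n‖ ≤ D * ε := by
    intro n
    calc ‖s n‖ ≤ ∑ σ ∈ Finset.univ.erase ι, ‖σ (a : ℚ⟮α⟯) * σ θ ^ n‖ := norm_sum_le _ _
      _ ≤ ∑ σ ∈ Finset.univ.erase ι, ε := by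
          refine Finset.sum_le_sum fun σ hσ => ?_
          have hne := (Finset.mem_erase.1 hσ).1
          rw [norm_mul, norm_pow]
          calc ‖σ (a : ℚ⟮α⟯)‖ * ‖σ θ‖ ^ n ≤ ε * 1 :=
                mul_le_mul (hsm σ hne).le (pow_le_one₀ (norm_nonneg _) (hconj σ hne))
                  (by positivity) hε0.le
            _ = ε := mul_one _
      _ = ((Finset.univ.erase ι).card : ℝ) * ε := by rw [Finset.sum_const, nsmul_eq_mul]
      _ ≤ D * ε := by
          refine mul_le_mul_of_nonneg_right ?_ hε0.le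
          rw [hD]
          exact_mod_cast (Finset.card_le_univ _)
  have hdist : ∀ n, distInt (ξ * α ^ n) = ‖s n‖ := by
    intro n
    obtain ⟨m, hm⟩ := hkey n
    have e : |ξ * α ^ n - m| = ‖s n‖ := by
      rw [← norm_neg (s n), ← hm, Complex.norm_real, Real.norm_eq_abs]
    rw [← e]
    apply distInt_eq_of_abs_le
    rw [e]
    have := hsb n
    have h2 : min (η / 2) (1 / 4 : ℝ) ≤ 1 / 4 := min_le_right _ _
    linarith
  refine ⟨ξ, ?_, ?_⟩
  · by_contra hcon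
    push Not at hcon
    have hzero : Tendsto (fun n : ℕ => distInt (ξ * α ^ n)) atTop (𝓝 0) := by
      apply tendsto_order.mpr
      constructor
      · intro b hb
        exact Eventually.of_forall fun n => lt_of_lt_of_le hb (distInt_nonneg _)
      · intro b hb
        exact eventually_lt_of_limsup_lt (lt_of_le_of_lt hcon hb) (bdd_above _ _)
    have hs0 : Tendsto s atTop (𝓝 0) := by
      rw [tendsto_zero_iff_norm_tendsto_zero]
      refine hzero.congr fun n => ?_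
      exact hdist n
    -- apply the lemma on sums of geometric progressions
    set c : (ℚ⟮α⟯ →ₐ[ℚ] ℂ) → ℂ := fun σ => if σ = ι then 0 else σ (a : ℚ⟮α⟯) with hc
    have hsc : ∀ n, s n = ∑ σ, c σ * (σ θ) ^ n := by
      intro n
      rw [← Finset.add_sum_erase _ _ (Finset.mem_univ ι), hc]
      simp only [if_true, zero_mul, zero_add]
      refine Finset.sum_congr rfl fun σ hσ => ?_
      rw [if_neg (Finset.mem_erase.1 hσ).1]
    have hz0 : c τ = 0 := by
      refine coeff_eq_zero (fun σ : ℚ⟮α⟯ →ₐ[ℚ] ℂ => σ θ) c (fun σ σ' h => alg_ext α h) ?_ τ ?_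
      · refine hs0.congr fun n => ?_
        exact hsc n
      · rw [hτ]; exact hz1
    rw [hc] at hz0
    simp only [if_neg hτι] at hz0
    exact ha0 ((map_eq_zero τ).1 hz0)
  · have hle' : F α ξ ≤ D * ε := by
      unfold F
      apply limsup_le_of_le (bdd_below _ _).isCoboundedUnder_le
      refine Eventually.of_forall fun n => ?_
      rw [hdist n]
      exact hsb n
    have h2 : min (η / 2) (1 / 4 : ℝ) ≤ η / 2 := min_le_left _ _
    linarith

end

end Pool.Agent.Lib.H57Sal
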